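import Mathlib

set_option autoImplicit false

namespace Pool.Agent.Results.MP_c6d0b8_gt.Example

open Set Filter

/-- the answers of Two in rounds `0, …, n - 1`, the latest first -/
def hist {α : Type} (U : ℕ → α) : ℕ → List α
  | 0 => []
  | n + 1 => U n :: hist U n

/-- One picks sets `A` with `M A`, Two answers with an open superset; One wins if `W` holds of
the answers. `Wins M W`: One has a winning strategy. -/
def Wins {X : Type} [TopologicalSpace X] (M : Set X → Prop) (W : (ℕ → Set X) → Prop) : Prop :=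
  ∃ σ : List (Set X) → Set X, (∀ l, M (σ l)) ∧
    ∀ U : ℕ → Set X, (∀ n, IsOpen (U n) ∧ σ (hist U n) ⊆ U n) → W U

/-- One has a winning predetermined strategy -/
def PreWins {X : Type} [TopologicalSpace X] (M : Set X → Prop) (W : (ℕ → Set X) → Prop) : Prop :=
  ∃ A : ℕ → Set X, (∀ n, M (A n)) ∧
    ∀ U : ℕ → Set X, (∀ n, IsOpen (U n) ∧ A n ⊆ U n) → W U

def NonemptyCompact {X : Type} [TopologicalSpace X] (K : Set X) : Prop :=
  K.Nonempty ∧ IsCompact K

/-- every compact set lies in one of the answers -/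
def KCovers {X : Type} [TopologicalSpace X] (U : ℕ → Set X) : Prop :=
  ∀ K : Set X, IsCompact K → ∃ n, K ⊆ U n

/-- the answers cover the space -/
def Covers {X : Type} (U : ℕ → Set X) : Prop := ⋃ n, U n = univ

def L : Type := Option ℝ

def pt : L := none
def el (a : ℝ) : L := some a

lemma el_inj : Function.Injective el := fun _ _ h => Option.some.inj h

instance : TopologicalSpace L where
  IsOpen U := pt ∈ U → Uᶜ.Countable
  isOpen_univ := fun _ => by simp
  isOpen_inter := fun s t hs ht h => by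
    rw [compl_inter]; exact (hs h.1).union (ht h.2)
  isOpen_sUnion := fun S hS h => by
    obtain ⟨t, ht, hp⟩ := h
    exact (hS t ht hp).mono (compl_subset_compl.2 (subset_sUnion_of_mem ht))

lemma open_of_not {U : Set L} (h : pt ∉ U) : IsOpen U := fun h' => absurd h' h
lemma open_compl {U : Set L} (h : U.Countable) : IsOpen Uᶜ := fun _ => by simpa using h

instance : T2Space L := by
  refine ⟨fun x y hxy => ?_⟩
  by_cases hx : x = pt
  · refine ⟨{y}ᶜ, {y}, open_compl (countable_singleton y), open_of_not ?_, hxy, rfl,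
      disjoint_compl_left⟩
    rw [← hx]; exact hxy
  · exact ⟨{x}, {x}ᶜ, open_of_not (Ne.symm hx), open_compl (countable_singleton x), rfl, hxy.symm,
      disjoint_compl_right⟩

lemma compact_finite {K : Set L} (hK : IsCompact K) : K.Finite := by
  by_contra hinf
  have h1 : (K \ {pt}).Infinite := Set.Infinite.sdiff hinf (finite_singleton _)
  obtain ⟨t, ht, htc, hti⟩ := h1.exists_subset_countable_infinite
  have hc : IsCompact t := hK.of_isClosed_subset ⟨open_compl htc⟩ fun x hx => (ht hx).1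
  obtain ⟨s, -, h⟩ := hc.elim_nhds_subcover (fun x => {x}) (by
    intro x hx
    exact (open_of_not fun h => (ht hx).2 (Eq.symm h)).mem_nhds rfl)
  refine hti (s.finite_toSet.subset fun x hx => ?_)
  simpa using h hx

abbrev Sp : Type := L ⊕ (ℕ → OnePoint ℕ)

lemma pre_finite {K : Set Sp} (hK : IsCompact K) : (Sum.inl ⁻¹' K : Set L).Finite :=
  compact_finite (Topology.IsClosedEmbedding.inl.isCompact_preimage hK)

lemma hist_len {α : Type} (U : ℕ → α) (n : ℕ) : (hist U n).length = n := by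
  induction n with
  | zero => rfl
  | succ n ih => simp [hist, ih]

lemma mem_hist {α : Type} (U : ℕ → α) {i n : ℕ} (h : i < n) : U i ∈ hist U n := by
  induction n with
  | zero => omega
  | succ n ih =>
    rcases Nat.lt_succ_iff_lt_or_eq.1 h with h | rfl
    · exact List.mem_cons_of_mem _ (ih h)
    · exact List.mem_cons_self

lemma part1 : Wins (X := Sp) NonemptyCompact KCovers := by
  have : ∀ U : Set Sp, ∃ e : ℕ → L, (Sum.inl ⁻¹' U : Set L)ᶜ.Countable →
      (Sum.inl ⁻¹' U : Set L)ᶜ ⊆ range e := by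
    intro U
    have : Nonempty L := ⟨pt⟩
    by_cases h : (Sum.inl ⁻¹' U : Set L)ᶜ.Countable
    · obtain ⟨e, he⟩ := countable_iff_exists_subset_range.1 h
      exact ⟨e, fun _ => he⟩
    · exact ⟨fun _ => pt, fun h' => absurd h' h⟩
  choose e he using this
  refine ⟨fun l => range Sum.inr ∪ Sum.inl '' (insert pt
    (⋃ U ∈ {U | U ∈ l}, e U '' Iio l.length)), fun l => ⟨⟨_, Or.inr ⟨pt, mem_insert _ _, rfl⟩⟩,
      (isCompact_range continuous_inr).union (Finite.isCompact (Finite.image _ (Finite.insert _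
        (Finite.biUnion (List.finite_toSet l) fun U _ => (finite_Iio _).image _))))⟩, ?_⟩
  intro U hU K hK
  have h1 : ∀ x ∈ (Sum.inl ⁻¹' K : Set L), ∀ᶠ n in atTop, Sum.inl x ∈ U n := by
    intro x _
    by_cases hx : ∀ n, Sum.inl x ∈ U n
    · exact Eventually.of_forall hx
    · push Not at hx
      obtain ⟨m, hm⟩ := hx
      have hc : (Sum.inl ⁻¹' U m : Set L)ᶜ.Countable :=
        ((hU m).1.preimage continuous_inl) ((hU m).2 (Or.inr ⟨pt, mem_insert _ _, rfl⟩))
      obtain ⟨k, hk⟩ := he _ hc hm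
      filter_upwards [eventually_gt_atTop m, eventually_gt_atTop k] with n h2 h3
      refine (hU n).2 (Or.inr ⟨x, Or.inr ?_, rfl⟩)
      exact mem_biUnion (mem_hist U h2) ⟨k, by simpa [hist_len] using h3, hk⟩
  obtain ⟨n, hn⟩ := ((eventually_all_finite (pre_finite hK)).2 h1).exists
  refine ⟨n, ?_⟩
  rintro (x | x) hx
  · exact hn x hx
  · exact (hU n).2 (Or.inl ⟨x, rfl⟩)

lemma part2 : ¬ Wins (X := Sp) Set.Finite Covers := by
  rintro ⟨σ, h1, h2⟩
  have : ∀ (n : ℕ) (F : Set Sp), ∃ s : OnePoint ℕ, F.Finite → ∀ a, Sum.inr a ∈ F → a n ≠ s := by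
    intro n F
    by_cases hF : F.Finite
    · have : ((fun a : ℕ → OnePoint ℕ => a n) '' (Sum.inr ⁻¹' F)).Finite :=
        (hF.preimage Sum.inr_injective.injOn).image _
      obtain ⟨s, hs⟩ := this.exists_notMem
      exact ⟨s, fun _ a ha h => hs ⟨a, ha, h⟩⟩
    · exact ⟨OnePoint.infty, fun h => absurd h hF⟩
  choose s hs using this
  let τ : ℕ → Set Sp → Set Sp := fun n F => range Sum.inl ∪ Sum.inr '' {a | a n ≠ s n F}
  let h : ℕ → List (Set Sp) := fun n => Nat.rec [] (fun n l => τ n (σ l) :: l) n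
  have e : ∀ n, hist (fun n => τ n (σ (h n))) n = h n := by
    intro n
    induction n with
    | zero => rfl
    | succ n ih => simp only [hist, ih]; rfl
  have := h2 (fun n => τ n (σ (h n))) (by
    intro n
    refine ⟨isOpen_range_inl.union (Topology.IsOpenEmbedding.inr.isOpenMap _
      (isOpen_ne_fun (continuous_apply n) continuous_const)), ?_⟩
    rw [e]
    rintro (x | x) hx
    · exact Or.inl ⟨x, rfl⟩
    · exact Or.inr ⟨x, hs n _ (h1 _) x hx, rfl⟩)
  have h3 : (Sum.inr (fun n => s n (σ (h n))) : Sp) ∈ ⋃ n, τ n (σ (h n)) := by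
    rw [this]; trivial
  obtain ⟨n, ⟨x, hx⟩ | ⟨a, ha, hx⟩⟩ := mem_iUnion.1 h3
  · exact Sum.inl_ne_inr hx
  · rw [Sum.inr_injective hx] at ha
    exact ha rfl

lemma part3 : ¬ PreWins (X := Sp) NonemptyCompact KCovers := by
  rintro ⟨A, h1, h2⟩
  have hc : (⋃ n, el ⁻¹' (Sum.inl ⁻¹' A n)).Countable :=
    countable_iUnion fun n => ((pre_finite (h1 n).2).preimage el_inj.injOn).countable
  obtain ⟨x, hx⟩ : ∃ x, x ∉ ⋃ n, el ⁻¹' (Sum.inl ⁻¹' A n) := by
    by_contra hne
    push Not at hne
    exact Cardinal.not_countable_real (hc.mono fun x _ => hne x)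
  obtain ⟨n, hn⟩ := h2 (fun _ => {Sum.inl (el x)}ᶜ) (fun n => ⟨isOpen_compl_singleton, by
    rintro y hy rfl
    exact hx (mem_iUnion.2 ⟨n, hy⟩)⟩) {Sum.inl (el x)} isCompact_singleton
  exact hn rfl rfl

theorem result : ∃ (X : Type) (_ : TopologicalSpace X), T2Space X ∧
    Wins (X := X) NonemptyCompact KCovers ∧ ¬ Wins (X := X) Set.Finite Covers ∧
    ¬ PreWins (X := X) NonemptyCompact KCovers :=
  ⟨Sp, inferInstance, inferInstance, part1, part2, part3⟩

end Pool.Agent.Results.MP_c6d0b8_gt.Example
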